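import Pool.Agent.Lib_helper77.TubeProofs

/-!
Algebraic integrability of the tubular neighbourhoods of even-dimensional spheres: a version of
the result for both cutoff functions, with the relation non-trivial on unit directions.
-/

set_option autoImplicit false

namespace Pool.Agent.Results.MP_d4ad8c_gt.TubeIntegrable

open Pool.Agent.Lib_helper77.TubeDefs

/-- For odd `k`, even `m` and `0 < ε < 1`, the body `T_{k,m,ε}` is algebraically integrable. -/
theorem result (k m : ℕ) (hk : Odd k) (hm : Even m) (ε : ℝ) (h0 : 0 < ε) (h1 : ε < 1) :
    AlgebraicallyIntegrable (tube k m ε) :=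
  Pool.Agent.Lib_helper77.TubeProofs.main k m hk hm ε h0 h1

end Pool.Agent.Results.MP_d4ad8c_gt.TubeIntegrable
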